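import Mathlib

/-!
# Small sums of independent two-point variables of mean one

`X i = a i` with probability `q i = 1 / a i` and `X i = 0` otherwise.  For a finite set `A` of indices
`Ex A φ` is the expectation of `φ (∑ i ∈ A, X i)`.
-/

set_option autoImplicit false

namespace Pool.Agent.H84.TwoPoint

open Finset

variable {ι : Type*} [DecidableEq ι]

/-- weight of the subset `S` of `A` -/
noncomputable def w (q : ι → ℝ) (A S : Finset ι) : ℝ := (∏ i ∈ S, q i) * ∏ i ∈ A \ S, (1 - q i)

/-- expectation of `φ` of the random sum over `A` -/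
noncomputable def Ex (a q : ι → ℝ) (A : Finset ι) (φ : ℝ → ℝ) : ℝ :=
  ∑ S ∈ A.powerset, w q A S * φ (∑ i ∈ S, a i)

variable {a q : ι → ℝ}

theorem w_erase {A S : Finset ι} {i : ι} (hi : i ∈ A) (hS : S ⊆ A.erase i) :
    w q A S = (1 - q i) * w q (A.erase i) S := by
  have hiS : i ∉ S := fun h => by simpa using hS h
  have e : A \ S = insert i (A.erase i \ S) := by
    ext j
    simp only [mem_sdiff, mem_insert, mem_erase]
    constructor
    · rintro ⟨h1, h2⟩
      by_cases hj : j = i
      · exact Or.inl hj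
      · exact Or.inr ⟨⟨hj, h1⟩, h2⟩
    · rintro (rfl | ⟨⟨_, h1⟩, h2⟩)
      · exact ⟨hi, hiS⟩
      · exact ⟨h1, h2⟩
  unfold w
  rw [e, prod_insert (by simp)]
  ring

theorem w_insert {A S : Finset ι} {i : ι} (hS : S ⊆ A.erase i) :
    w q A (insert i S) = q i * w q (A.erase i) S := by
  have hiS : i ∉ S := fun h => by simpa using hS h
  have e : A \ insert i S = A.erase i \ S := by
    ext j
    simp only [mem_sdiff, mem_insert, mem_erase]
    tauto
  unfold w
  rw [e, prod_insert hiS]
  ring

theorem w_nonneg (h0 : ∀ i, 0 ≤ q i) (h1 : ∀ i, q i ≤ 1) (A S : Finset ι) : 0 ≤ w q A S :=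
  mul_nonneg (prod_nonneg fun i _ => h0 i) (prod_nonneg fun i _ => by linarith [h1 i])

/-- recursion: split off one variable -/
theorem Ex_erase {A : Finset ι} {i : ι} (hi : i ∈ A) (φ : ℝ → ℝ) :
    Ex a q A φ = (1 - q i) * Ex a q (A.erase i) φ
      + q i * Ex a q (A.erase i) (fun x => φ (x + a i)) := by
  have hA : A = insert i (A.erase i) := (insert_erase hi).symm
  have e1 : Ex a q A φ = ∑ S ∈ (insert i (A.erase i)).powerset, w q A S * φ (∑ i ∈ S, a i) := by
    unfold Ex
    rw [← hA]
  rw [e1, sum_powerset_insert (by simp)]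
  unfold Ex
  rw [mul_sum, mul_sum]
  congr 1
  · apply sum_congr rfl
    intro S hS
    rw [mem_powerset] at hS
    rw [w_erase hi hS]
    ring
  · apply sum_congr rfl
    intro S hS
    rw [mem_powerset] at hS
    have hiS : i ∉ S := fun h => by simpa using hS h
    rw [w_insert hS, sum_insert hiS, add_comm (a i)]
    ring

/-- the contribution of the sets not containing `i` -/
theorem sum_notMem {A : Finset ι} {i : ι} (hi : i ∈ A) (φ : ℝ → ℝ) :
    ∑ S ∈ A.powerset.filter (fun S => i ∉ S), w q A S * φ (∑ i ∈ S, a i) =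
      (1 - q i) * Ex a q (A.erase i) φ := by
  have e : A.powerset.filter (fun S => i ∉ S) = (A.erase i).powerset := by
    ext S
    simp only [mem_filter, mem_powerset, subset_erase]
  rw [e]
  unfold Ex
  rw [mul_sum]
  apply sum_congr rfl
  intro S hS
  rw [mem_powerset] at hS
  rw [w_erase hi hS]
  ring

/-- size-bias identity -/
theorem sum_bias (A : Finset ι) (φ : ℝ → ℝ) :
    ∑ i ∈ A, a i * (Ex a q A φ - (1 - q i) * Ex a q (A.erase i) φ) =
      Ex a q A (fun x => x * φ x) := by
  have h1 : ∀ i ∈ A, a i * (Ex a q A φ - (1 - q i) * Ex a q (A.erase i) φ) =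
      ∑ S ∈ A.powerset, if i ∈ S then a i * (w q A S * φ (∑ i ∈ S, a i)) else 0 := by
    intro i hi
    rw [← sum_notMem hi φ]
    have h2 : Ex a q A φ = ∑ S ∈ A.powerset.filter (fun S => i ∈ S), w q A S * φ (∑ i ∈ S, a i)
        + ∑ S ∈ A.powerset.filter (fun S => i ∉ S), w q A S * φ (∑ i ∈ S, a i) := by
      unfold Ex
      rw [sum_filter_add_sum_filter_not]
    rw [h2, add_sub_cancel_right, mul_sum, sum_filter]
  rw [sum_congr rfl h1, sum_comm]
  unfold Ex
  apply sum_congr rfl
  intro S hS
  rw [mem_powerset] at hS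
  rw [← sum_filter]
  have e : A.filter (fun i => i ∈ S) = S := by
    ext j
    simp only [mem_filter]
    exact ⟨fun h => h.2, fun h => ⟨hS h, h⟩⟩
  rw [e, ← sum_mul]
  ring

theorem Ex_mono (h0 : ∀ i, 0 ≤ q i) (h1 : ∀ i, q i ≤ 1) (ha : ∀ i, 0 ≤ a i) {A : Finset ι}
    {φ ψ : ℝ → ℝ} (h : ∀ x, 0 ≤ x → φ x ≤ ψ x) : Ex a q A φ ≤ Ex a q A ψ := by
  unfold Ex
  apply sum_le_sum
  intro S _
  exact mul_le_mul_of_nonneg_left (h _ (sum_nonneg fun i _ => ha i)) (w_nonneg h0 h1 A S)

theorem Ex_add (A : Finset ι) (φ ψ : ℝ → ℝ) :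
    Ex a q A (fun x => φ x + ψ x) = Ex a q A φ + Ex a q A ψ := by
  unfold Ex
  rw [← sum_add_distrib]
  exact sum_congr rfl fun S _ => by ring

theorem Ex_const_mul (A : Finset ι) (c : ℝ) (φ : ℝ → ℝ) :
    Ex a q A (fun x => c * φ x) = c * Ex a q A φ := by
  unfold Ex
  rw [mul_sum]
  exact sum_congr rfl fun S _ => by ring

theorem Ex_sub (A : Finset ι) (φ ψ : ℝ → ℝ) :
    Ex a q A (fun x => φ x - ψ x) = Ex a q A φ - Ex a q A ψ := by
  unfold Ex
  rw [← sum_sub_distrib]
  exact sum_congr rfl fun S _ => by ring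

theorem Ex_one (A : Finset ι) : Ex a q A (fun _ => 1) = 1 := by
  induction A using Finset.induction_on with
  | empty => simp [Ex, w]
  | insert i A hi ih =>
    rw [Ex_erase (mem_insert_self i A), erase_insert hi, ih]
    ring

theorem Ex_id (hq : ∀ i, a i * q i = 1) (A : Finset ι) : Ex a q A (fun x => x) = A.card := by
  induction A using Finset.induction_on with
  | empty => simp [Ex, w]
  | insert i A hi ih =>
    rw [Ex_erase (mem_insert_self i A), erase_insert hi, Ex_add A (fun x => x) (fun _ => a i)]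
    have h1 : Ex a q A (fun _ => a i) = a i := by
      have := Ex_const_mul (a := a) (q := q) A (a i) (fun _ => 1)
      simp only [mul_one] at this
      rw [this, Ex_one, mul_one]
    rw [h1, ih, card_insert_of_notMem hi]
    push_cast
    linear_combination hq i

/-- the indicator of `x < N` -/
noncomputable def ind (N : ℝ) : ℝ → ℝ := fun x => if x < N then 1 else 0

/-- probability that the sum over `A` is less than `N` -/
noncomputable def f (a q : ι → ℝ) (N : ℝ) (A : Finset ι) : ℝ := Ex a q A (ind N)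

/-- truncated first moment -/
noncomputable def M (a q : ι → ℝ) (N : ℝ) (A : Finset ι) : ℝ := Ex a q A (fun x => x * ind N x)

theorem f_pos (h0 : ∀ i, 0 < q i) (h1 : ∀ i, q i < 1) {N : ℝ} (hN : 0 < N) (A : Finset ι) :
    0 < f a q N A := by
  unfold f Ex
  have h : 0 < w q A ∅ * ind N (∑ i ∈ (∅ : Finset ι), a i) := by
    have : ind N (∑ i ∈ (∅ : Finset ι), a i) = 1 := by simp [ind, hN]
    rw [this, mul_one]
    unfold w
    rw [prod_empty, one_mul]
    exact prod_pos fun i _ => by linarith [h1 i]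
  refine lt_of_lt_of_le h (single_le_sum (f := fun S => w q A S * ind N (∑ i ∈ S, a i))
    (fun S _ => mul_nonneg (w_nonneg (fun i => (h0 i).le) (fun i => (h1 i).le) A S) ?_)
    (empty_mem_powerset A))
  unfold ind; split_ifs <;> norm_num

/-- there is an index whose removal does not increase the truncated mean -/
theorem exists_erase (h0 : ∀ i, 0 < q i) (h1 : ∀ i, q i < 1) (ha : ∀ i, 0 < a i) {N : ℝ}
    (A : Finset ι) (hA : A.Nonempty) :
    ∃ i ∈ A, M a q N (A.erase i) * f a q N A ≤ M a q N A * f a q N (A.erase i) := by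
  by_contra hcon
  push Not at hcon
  have e1 := sum_bias (a := a) (q := q) A (ind N)
  have e2 := sum_bias (a := a) (q := q) A (fun x => x * ind N x)
  -- `f * E[x^2; x < N] - M^2 ≥ 0`
  have hCS : M a q N A ^ 2 ≤ f a q N A * Ex a q A (fun x => x * (x * ind N x)) := by
    unfold M f Ex
    have := sum_mul_sq_le_sq_mul_sq A.powerset
      (fun S => Real.sqrt (w q A S * ind N (∑ i ∈ S, a i)))
      (fun S => Real.sqrt (w q A S * ind N (∑ i ∈ S, a i)) * (∑ i ∈ S, a i))
    have hnn : ∀ S, 0 ≤ w q A S * ind N (∑ i ∈ S, a i) := fun S =>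
      mul_nonneg (w_nonneg (fun i => (h0 i).le) (fun i => (h1 i).le) A S)
        (by unfold ind; split_ifs <;> norm_num)
    have t1 : ∀ S ∈ A.powerset, Real.sqrt (w q A S * ind N (∑ i ∈ S, a i)) *
        (Real.sqrt (w q A S * ind N (∑ i ∈ S, a i)) * (∑ i ∈ S, a i)) =
        w q A S * ((∑ i ∈ S, a i) * ind N (∑ i ∈ S, a i)) := by
      intro S _
      rw [← mul_assoc, Real.mul_self_sqrt (hnn S)]
      ring
    have t2 : ∀ S ∈ A.powerset, Real.sqrt (w q A S * ind N (∑ i ∈ S, a i)) ^ 2 =
        w q A S * ind N (∑ i ∈ S, a i) := fun S _ => Real.sq_sqrt (hnn S)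
    have t3 : ∀ S ∈ A.powerset, (Real.sqrt (w q A S * ind N (∑ i ∈ S, a i)) *
        (∑ i ∈ S, a i)) ^ 2 = w q A S * ((∑ i ∈ S, a i) *
          ((∑ i ∈ S, a i) * ind N (∑ i ∈ S, a i))) := by
      intro S _
      rw [mul_pow, Real.sq_sqrt (hnn S)]
      ring
    rw [sum_congr rfl t1, sum_congr rfl t2, sum_congr rfl t3] at this
    exact this
  have hsum : ∑ i ∈ A, a i * ((M a q N A - (1 - q i) * M a q N (A.erase i)) * f a q N A
      - M a q N A * (f a q N A - (1 - q i) * f a q N (A.erase i))) =
      f a q N A * Ex a q A (fun x => x * (x * ind N x)) - M a q N A ^ 2 := by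
    have e1' : ∑ i ∈ A, a i * (f a q N A - (1 - q i) * f a q N (A.erase i)) = M a q N A := e1
    have e2' : ∑ i ∈ A, a i * (M a q N A - (1 - q i) * M a q N (A.erase i)) =
      Ex a q A (fun x => x * (x * ind N x)) := e2
    have e3 : ∑ i ∈ A, a i * ((M a q N A - (1 - q i) * M a q N (A.erase i)) * f a q N A
      - M a q N A * (f a q N A - (1 - q i) * f a q N (A.erase i))) =
      f a q N A * (∑ i ∈ A, a i * (M a q N A - (1 - q i) * M a q N (A.erase i))) -
        M a q N A * (∑ i ∈ A, a i * (f a q N A - (1 - q i) * f a q N (A.erase i))) := by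
      rw [mul_sum, mul_sum, ← sum_sub_distrib]
      apply sum_congr rfl
      intro i _
      ring
    rw [e3, e1', e2']
    ring
  have hneg : ∑ i ∈ A, a i * ((M a q N A - (1 - q i) * M a q N (A.erase i)) * f a q N A
      - M a q N A * (f a q N A - (1 - q i) * f a q N (A.erase i))) < 0 := by
    apply sum_neg
    · intro i hi
      have h2 := hcon i hi
      have h3 : (M a q N A - (1 - q i) * M a q N (A.erase i)) * f a q N A
        - M a q N A * (f a q N A - (1 - q i) * f a q N (A.erase i)) =
        - ((1 - q i) * (M a q N (A.erase i) * f a q N A - M a q N A * f a q N (A.erase i))) := by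
        ring
      rw [h3]
      have h4 : 0 < (1 - q i) * (M a q N (A.erase i) * f a q N A - M a q N A * f a q N (A.erase i)) :=
        mul_pos (by linarith [h1 i]) (by linarith)
      nlinarith [mul_pos (ha i) h4]
    · exact hA
  linarith

/-- conditioning on `x < N` does not increase the mean -/
theorem M_le_card (h0 : ∀ i, 0 < q i) (h1 : ∀ i, q i < 1) (ha : ∀ i, 0 < a i)
    (hq : ∀ i, a i * q i = 1) {N : ℝ} (A : Finset ι) :
    M a q N A ≤ A.card * f a q N A := by
  have hid := Ex_id hq A
  have hone := Ex_one (a := a) (q := q) A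
  have hq0 : ∀ i, 0 ≤ q i := fun i => (h0 i).le
  have hq1 : ∀ i, q i ≤ 1 := fun i => (h1 i).le
  have ha0 : ∀ i, 0 ≤ a i := fun i => (ha i).le
  have e1 : Ex a q A (fun x => x) = M a q N A + Ex a q A (fun x => x * (1 - ind N x)) := by
    unfold M
    rw [← Ex_add]
    congr 1
    funext x; ring
  have e2 : Ex a q A (fun x => N * (1 - ind N x)) = N * (1 - f a q N A) := by
    rw [Ex_const_mul, Ex_sub A (fun _ => 1) (ind N), hone]; rfl
  have e3 : Ex a q A (fun x => N * (1 - ind N x)) ≤ Ex a q A (fun x => x * (1 - ind N x)) := by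
    apply Ex_mono hq0 hq1 ha0
    intro x _
    unfold ind
    split_ifs with h
    · simp
    · push Not at h; linarith
  have e4 : M a q N A ≤ Ex a q A (fun x => N * ind N x) := by
    apply Ex_mono hq0 hq1 ha0
    intro x _
    unfold ind
    split_ifs with h
    · linarith
    · simp
  rw [Ex_const_mul] at e4
  have e5 : Ex a q A (ind N) = f a q N A := rfl
  rw [e5] at e4
  have hf0 : 0 ≤ f a q N A := by
    have : Ex a q A (fun _ => 0) ≤ Ex a q A (ind N) := by
      apply Ex_mono hq0 hq1 ha0
      intro x _; unfold ind; split_ifs <;> norm_num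
    have h0' : Ex a q A (fun _ => (0 : ℝ)) = 0 := by simp [Ex]
    rw [h0'] at this
    exact this
  have hf1 : f a q N A ≤ 1 := by
    rw [← hone]
    apply Ex_mono hq0 hq1 ha0
    intro x _; unfold ind; split_ifs <;> norm_num
  rw [hid] at e1
  rw [e2] at e3
  nlinarith [mul_nonneg (sub_nonneg.2 hf1) (sub_nonneg.2 e4), mul_nonneg hf0 (sub_nonneg.2 e3)]

/-- `E (N - x)^+` as `N f - M` and one step of the process -/
theorem step (h0 : ∀ i, 0 < q i) (h1 : ∀ i, q i < 1) (ha : ∀ i, 0 < a i)
    (hq : ∀ i, a i * q i = 1) {N : ℝ} {A : Finset ι} {i : ι} (hi : i ∈ A) :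
    (N * f a q N (A.erase i) - M a q N (A.erase i)) - f a q N (A.erase i) ≤
      N * f a q N A - M a q N A := by
  have hq0 : ∀ i, 0 ≤ q i := fun i => (h0 i).le
  have hq1 : ∀ i, q i ≤ 1 := fun i => (h1 i).le
  have ha0 : ∀ i, 0 ≤ a i := fun i => (ha i).le
  have e1 : ∀ B : Finset ι, N * f a q N B - M a q N B =
      Ex a q B (fun x => (N - x) * ind N x) := by
    intro B
    unfold f M
    rw [← Ex_const_mul, ← Ex_sub]
    congr 1
    funext x; ring
  rw [e1, e1, Ex_erase hi]
  have e2 : Ex a q (A.erase i) (fun x => (N - x) * ind N x) - a i * f a q N (A.erase i) ≤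
      Ex a q (A.erase i) (fun x => (N - (x + a i)) * ind N (x + a i)) := by
    unfold f
    rw [← Ex_const_mul, ← Ex_sub]
    apply Ex_mono hq0 hq1 ha0
    intro x _
    have hai := ha i
    unfold ind
    split_ifs with h2 h3 h3
    · linarith
    · push Not at h3; linarith
    · push Not at h2; linarith
    · linarith
  have h2 := mul_le_mul_of_nonneg_left e2 (hq0 i)
  have h3 := hq i
  have h4 : q i * (a i * f a q N (A.erase i)) = f a q N (A.erase i) := by
    rw [← mul_assoc, mul_comm (q i), h3, one_mul]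
  nlinarith

/-- the lower bound in the induction -/
noncomputable def Lb (N B : ℝ) (k : ℕ) : ℝ :=
  (N - min (k : ℝ) B) * (1 - 1 / (N - B)) ^ (max ((k : ℝ) - B) 0)

theorem Lb_step {N B : ℝ} {k : ℕ} (hBN : B + 1 ≤ N) (hk : (k : ℝ) + 2 ≤ N) :
    Lb N B (k + 1) ≤ Lb N B k * (1 - 1 / (N - min (k : ℝ) B)) := by
  unfold Lb
  have hu : 0 < N - B := by linarith
  have hu1 : 0 ≤ 1 - 1 / (N - B) := by
    rw [sub_nonneg, div_le_one hu]; linarith
  rcases le_or_gt ((k : ℝ) + 1) B with h1 | h1
  · have e1 : min ((k + 1 : ℕ) : ℝ) B = k + 1 := by push_cast; exact min_eq_left h1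
    have e2 : min (k : ℝ) B = k := min_eq_left (by linarith)
    have e3 : max (((k + 1 : ℕ) : ℝ) - B) 0 = 0 := by
      push_cast; exact max_eq_right (by linarith)
    have e4 : max ((k : ℝ) - B) 0 = 0 := max_eq_right (by linarith)
    rw [e1, e2, e3, e4, Real.rpow_zero, mul_one, mul_one]
    have : N - (k : ℝ) ≠ 0 := by linarith
    field_simp
    linarith
  · rcases le_or_gt B (k : ℝ) with h2 | h2
    · have e1 : min ((k + 1 : ℕ) : ℝ) B = B := by push_cast; exact min_eq_right (by linarith)
      have e2 : min (k : ℝ) B = B := min_eq_right h2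
      have e3 : max (((k + 1 : ℕ) : ℝ) - B) 0 = ((k : ℝ) - B) + 1 := by
        push_cast
        rw [max_eq_left (by linarith)]; ring
      have e4 : max ((k : ℝ) - B) 0 = (k : ℝ) - B := max_eq_left (by linarith)
      rw [e1, e2, e3, e4, Real.rpow_add_one' hu1 (by linarith)]
      apply le_of_eq; ring
    · have e1 : min ((k + 1 : ℕ) : ℝ) B = B := by push_cast; exact min_eq_right (by linarith)
      have e2 : min (k : ℝ) B = k := min_eq_left h2.le
      have e3 : max (((k + 1 : ℕ) : ℝ) - B) 0 = (k : ℝ) + 1 - B := by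
        push_cast
        rw [max_eq_left (by linarith)]
      have e4 : max ((k : ℝ) - B) 0 = 0 := max_eq_right (by linarith)
      rw [e1, e2, e3, e4, Real.rpow_zero, mul_one]
      have hbern : (1 + (-(1 / (N - B)))) ^ ((k : ℝ) + 1 - B) ≤
          1 + ((k : ℝ) + 1 - B) * (-(1 / (N - B))) := by
        apply rpow_one_add_le_one_add_mul_self
        · linarith
        · linarith
        · linarith
      have e5 : 1 - 1 / (N - B) = 1 + (-(1 / (N - B))) := by ring
      rw [e5]
      have h3 := mul_le_mul_of_nonneg_left hbern hu.le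
      have e6 : (N - B) * (1 + ((k : ℝ) + 1 - B) * (-(1 / (N - B)))) = N - k - 1 := by
        field_simp
        ring
      have e7 : (N - (k : ℝ)) * (1 - 1 / (N - k)) = N - k - 1 := by
        have : N - (k : ℝ) ≠ 0 := by linarith
        field_simp
      rw [e7]
      linarith

theorem main_lower (h0 : ∀ i, 0 < q i) (h1 : ∀ i, q i < 1) (ha : ∀ i, 0 < a i)
    (hq : ∀ i, a i * q i = 1) {N B : ℝ} (hB : 0 ≤ B) (hBN : B + 1 ≤ N) :
    ∀ (k : ℕ) (A : Finset ι), A.card = k → (k : ℝ) + 1 ≤ N → M a q N A ≤ B * f a q N A →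
      Lb N B k ≤ N * f a q N A - M a q N A := by
  intro k
  induction k with
  | zero =>
    intro A hA _ _
    rw [card_eq_zero] at hA
    subst hA
    have hN : 0 < N := by linarith
    have e1 : f a q N ∅ = 1 := by simp [f, Ex, w, ind, hN]
    have e2 : M a q N ∅ = 0 := by simp [M, Ex, w, ind]
    rw [e1, e2]
    unfold Lb
    have e3 : min ((0 : ℕ) : ℝ) B = 0 := by push_cast; exact min_eq_left hB
    have e4 : max (((0 : ℕ) : ℝ) - B) 0 = 0 := by push_cast; exact max_eq_right (by linarith)
    rw [e3, e4, Real.rpow_zero]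
    linarith
  | succ k ih =>
    intro A hA hkN hM
    have hne : A.Nonempty := by
      rw [← card_pos, hA]; omega
    obtain ⟨i, hi, hle⟩ := exists_erase (N := N) h0 h1 ha A hne
    have hcard : (A.erase i).card = k := by rw [card_erase_of_mem hi, hA]; rfl
    have hN : 0 < N := by linarith
    have hfA := f_pos (a := a) h0 h1 hN A
    have hfE := f_pos (a := a) h0 h1 hN (A.erase i)
    have hkN' : (k : ℝ) + 2 ≤ N := by push_cast at hkN; linarith
    have hM' : M a q N (A.erase i) ≤ B * f a q N (A.erase i) := by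
      have h2 : M a q N (A.erase i) * f a q N A ≤ (B * f a q N (A.erase i)) * f a q N A := by
        calc M a q N (A.erase i) * f a q N A ≤ M a q N A * f a q N (A.erase i) := hle
          _ ≤ (B * f a q N A) * f a q N (A.erase i) := mul_le_mul_of_nonneg_right hM hfE.le
          _ = (B * f a q N (A.erase i)) * f a q N A := by ring
      exact le_of_mul_le_mul_right h2 hfA
    have hMk : M a q N (A.erase i) ≤ k * f a q N (A.erase i) := by
      have := M_le_card (N := N) h0 h1 ha hq (A.erase i)
      rwa [hcard] at this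
    have hMc : M a q N (A.erase i) ≤ min (k : ℝ) B * f a q N (A.erase i) := by
      rcases min_choice (k : ℝ) B with h | h <;> rw [h] <;> assumption
    have hih := ih (A.erase i) hcard (by linarith) hM'
    have hst := step (N := N) h0 h1 ha hq hi
    have hc : min (k : ℝ) B ≤ k := min_le_left _ _
    have hNc : 0 < N - min (k : ℝ) B := by linarith
    have hfac : 0 ≤ 1 - 1 / (N - min (k : ℝ) B) := by
      rw [sub_nonneg, div_le_one hNc]; linarith
    calc Lb N B (k + 1) ≤ Lb N B k * (1 - 1 / (N - min (k : ℝ) B)) := Lb_step hBN hkN'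
      _ ≤ (N * f a q N (A.erase i) - M a q N (A.erase i)) * (1 - 1 / (N - min (k : ℝ) B)) :=
          mul_le_mul_of_nonneg_right hih hfac
      _ ≤ (N * f a q N (A.erase i) - M a q N (A.erase i)) - f a q N (A.erase i) := by
          have h5 : f a q N (A.erase i) ≤
              (N * f a q N (A.erase i) - M a q N (A.erase i)) * (1 / (N - min (k : ℝ) B)) := by
            rw [mul_one_div, le_div_iff₀ hNc]
            linarith
          linarith
      _ ≤ N * f a q N A - M a q N A := hst

/-- the final analytic inequality -/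
theorem exp_le {u : ℝ} (hu : 1 ≤ u) : Real.exp (-1) ≤ (1 - 1 / u) ^ (u - 1) := by
  rcases hu.eq_or_lt with h | h
  · rw [← h]; norm_num
  · have hu0 : 0 < u := by linarith
    have h1 : 0 < 1 - 1 / u := by
      rw [sub_pos, div_lt_one hu0]; exact h
    rw [Real.rpow_def_of_pos h1]
    apply Real.exp_le_exp.2
    have h2 : 1 - (1 - 1 / u)⁻¹ ≤ Real.log (1 - 1 / u) := Real.one_sub_inv_le_log_of_pos h1
    have h3 : 1 - (1 - 1 / u)⁻¹ = - (1 / (u - 1)) := by
      have : u - 1 ≠ 0 := by linarith
      have h4 : 1 - 1 / u = (u - 1) / u := by field_simp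
      rw [h4, inv_div]
      field_simp
      ring
    rw [h3] at h2
    have h5 : 0 < u - 1 := by linarith
    have h6 := mul_le_mul_of_nonneg_right h2 h5.le
    have h7 : -(1 / (u - 1)) * (u - 1) = -1 := by field_simp
    linarith

theorem main (h0 : ∀ i, 0 < q i) (h1 : ∀ i, q i < 1) (ha : ∀ i, 0 < a i)
    (hq : ∀ i, a i * q i = 1) (A : Finset ι) :
    Real.exp (-1) ≤ f a q (A.card + 1) A := by
  set N : ℝ := A.card + 1 with hN
  have hN0 : 0 < N := by positivity
  have hf := f_pos (a := a) h0 h1 hN0 A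
  have hMc := M_le_card (N := N) h0 h1 ha hq A
  have hM0 : 0 ≤ M a q N A := by
    have h2 : Ex a q A (fun _ => 0) ≤ Ex a q A (fun x => x * ind N x) := by
      apply Ex_mono (fun i => (h0 i).le) (fun i => (h1 i).le) (fun i => (ha i).le)
      intro x hx
      unfold ind; split_ifs
      · linarith
      · linarith
    have h0' : Ex a q A (fun _ => (0 : ℝ)) = 0 := by simp [Ex]
    rw [h0'] at h2
    exact h2
  set B : ℝ := M a q N A / f a q N A with hBdef
  have hBM : B * f a q N A = M a q N A := by rw [hBdef]; field_simp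
  have hB0 : 0 ≤ B := div_nonneg hM0 hf.le
  have hBc : B ≤ A.card := by
    rw [hBdef, div_le_iff₀ hf]; exact hMc
  have hBN : B + 1 ≤ N := by rw [hN]; linarith
  have h3 := main_lower h0 h1 ha hq hB0 hBN A.card A rfl (le_of_eq hN.symm) (le_of_eq hBM.symm)
  have hu : 1 ≤ N - B := by linarith
  have e1 : Lb N B A.card = (N - B) * (1 - 1 / (N - B)) ^ ((N - B) - 1) := by
    unfold Lb
    rw [min_eq_right hBc, max_eq_left (by linarith)]
    congr 2
    rw [hN]; ring
  have e2 : N * f a q N A - M a q N A = (N - B) * f a q N A := by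
    rw [← hBM]; ring
  rw [e1, e2] at h3
  have h4 : (1 - 1 / (N - B)) ^ ((N - B) - 1) ≤ f a q N A :=
    le_of_mul_le_mul_left h3 (by linarith)
  exact le_trans (exp_le hu) h4

end Pool.Agent.H84.TwoPoint
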